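import Pool.Agent.Y146.KG.T1F
import Pool.Agent.Y714.KH.Stm

/-!
# KH-T1G: the number of lattices with bounded brackets
-/

set_option autoImplicit false
set_option linter.unusedSectionVars false
set_option linter.unusedVariables false

namespace Pool.Agent.Y672.KH

open Pool.Agent.Y714.KE
open Pool.Agent.Y714.KG
open Pool.Agent.Y714.KH
open Pool.Agent.Y146.KG
open Pool.Agent.Y714.KF (FI sp ct nm pm ext br ubas qf bk el sg bf)
open Pool.Agent.Y319.KE (Nw box dyad abs_le_Nw one_le_Nw zA card_Ix prod_exp)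
open NumberField FractionalIdeal Module Finset ComplexConjugate
open scoped nonZeroDivisors

section

variable {F : Type} [Field F] [NumberField F] {s : Type} [Fintype s] [DecidableEq s]
  {K : s → Type} [∀ i, Field (K i)] [∀ i, NumberField (K i)] [∀ i, Algebra F (K i)]

theorem structG (h1 : S_RDF F K) (h4 : S_CRD F K)
    (hn : 3 ≤ dF F K) (I : FU K) (C₁ : ℝ) (b : Bs K)
    (hb : IsB I b) : ∃ (B : ℝ) (m : ℕ), 0 < B ∧ 0 < m ∧ ∀ (y : s → ℝ),
      ∀ M ∈ LC F (cf I) C₁ y, ∃ z w : Ix K → ℤ, Hr F b m z w M ∧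
        0 < Nw (fun x : Ix K => Real.exp (y x.1)) z ∧
        Nw (fun x : Ix K => Real.exp (y x.1)) z * Nw (fun x : Ix K => Real.exp (y x.1)) w ≤ B ∧
        Nw (fun x : Ix K => Real.exp (y x.1)) z ^ 2 ≤ B ∧
        ((∀ i, ∃ k, z ⟨i, k⟩ ≠ 0) ∨ ∃ j, finrank F (K j) = 1 ∧ (∀ k, z ⟨j, k⟩ = 0) ∧
          (∃ k, w ⟨j, k⟩ ≠ 0) ∧ ∀ i, i ≠ j → ∃ k, z ⟨i, k⟩ ≠ 0) := by
  obtain ⟨c, C, hc, hC, hbd⟩ := E_bound b
  obtain ⟨C2, hC2, hrd⟩ := h1 (by omega : 2 ≤ dF F K) I C₁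
  refine ⟨√C2 / c + C2 / c + 1, (⌊C2⌋₊).factorial, by positivity, Nat.factorial_pos _,
    fun y M hM => ?_⟩
  obtain ⟨P, rfl, hcn, hND, hbr'⟩ := hM
  obtain ⟨α, hα, β, hβ, m, hm, hmC, hQ0, hQ1, hQ2, hind, hgen⟩ := hrd y P hcn hND hbr'
  obtain ⟨z, hz⟩ := (E_mem hb α).1 (LF_I hcn hα)
  obtain ⟨w, hw⟩ := (E_mem hb β).1 (LF_I hcn hβ)
  obtain ⟨n1, n1'⟩ := hbd y z
  obtain ⟨n2, n2'⟩ := hbd y w
  rw [← hz] at n1 n1'
  rw [← hw] at n2 n2'
  have hzn : (0 : ℝ) ≤ Nw (fun x : Ix K => Real.exp (y x.1)) z := norm_nonneg _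
  have hwn : (0 : ℝ) ≤ Nw (fun x : Ix K => Real.exp (y x.1)) w := norm_nonneg _
  have hsq : √C2 ^ 2 = C2 := Real.sq_sqrt hC2.le
  have hs0 : 0 ≤ √C2 := Real.sqrt_nonneg _
  have p1 : 0 ≤ √C2 / c := by positivity
  have p2 : 0 ≤ C2 / c := by positivity
  refine ⟨z, w, ⟨?_, ?_, ?_, ?_⟩, ?_, ?_, ?_, ?_⟩
  · rw [← hz]; exact hα
  · rw [← hw]; exact hβ
  · intro x hx x' hx' c c'
    exact LF_cl hx hx' c c'
  · intro x hx
    obtain ⟨u, v, huv⟩ := hgen x hx
    have hle : m ≤ ⌊C2⌋₊ := Nat.le_floor hmC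
    obtain ⟨k, hk⟩ := Nat.dvd_factorial hm hle
    refine ⟨k * u, k * v, ?_⟩
    rw [hk, ← hz, ← hw]
    push_cast
    rw [mul_comm (m : Al K), mul_assoc, huv]
    simp only [map_mul, map_natCast]
    ring
  · rcases hzn.lt_or_eq with h | h
    · exact h
    · exfalso
      rw [← h] at n1'
      have : C * (0 : ℝ) ^ 2 = 0 := by ring
      linarith
  · have h5 : Nw (fun x : Ix K => Real.exp (y x.1)) z *
        Nw (fun x : Ix K => Real.exp (y x.1)) w ≤ √C2 / c := by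
      rw [le_div_iff₀ hc]
      refine abs_le_of_sq_le_sq' ?_ hs0 |>.2
      rw [hsq]
      have q0 := QY_nonneg y α
      have q0' := QY_nonneg y β
      calc (Nw (fun x : Ix K => Real.exp (y x.1)) z * Nw (fun x : Ix K => Real.exp (y x.1)) w *
            c) ^ 2 =
          (c * Nw (fun x : Ix K => Real.exp (y x.1)) z ^ 2) *
            (c * Nw (fun x : Ix K => Real.exp (y x.1)) w ^ 2) := by ring
        _ ≤ QY y α * QY y β := by gcongr
        _ ≤ C2 := hQ2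
    linarith
  · have h5 : Nw (fun x : Ix K => Real.exp (y x.1)) z ^ 2 ≤ C2 / c := by
      rw [le_div_iff₀ hc]
      linarith
    linarith
  · by_cases hall : ∀ i, ∃ k, z ⟨i, k⟩ ≠ 0
    · exact Or.inl hall
    right
    push Not at hall
    obtain ⟨j, hj⟩ := hall
    have hαj : α j = 0 := by rw [hz]; exact (E_zero_comp b z j).2 hj
    -- the determinant
    obtain ⟨a₁, b₁, hα'⟩ := hα
    obtain ⟨c₁, d₁, hβ'⟩ := hβ
    obtain ⟨D, hD⟩ : ∃ D : F, D = (a₁ : F) * d₁ - (b₁ : F) * c₁ := ⟨_, rfl⟩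
    have hD0 : D ≠ 0 := by
      intro h0
      have e1 := hind (d₁ : F) (-(b₁ : F)) (by
        have : fa F K (d₁ : F) * α + fa F K (-(b₁ : F)) * β = fa F K D * P.1 := by
          rw [hα', hβ', hD]
          simp only [map_neg, map_sub, map_mul]
          ring
        rw [this, h0, map_zero, zero_mul])
      have e2 := hind (-(c₁ : F)) (a₁ : F) (by
        have : fa F K (-(c₁ : F)) * α + fa F K (a₁ : F) * β = fa F K D * P.2 := by
          rw [hα', hβ', hD]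
          simp only [map_neg, map_sub, map_mul]
          ring
        rw [this, h0, map_zero, zero_mul])
      have e3 : (a₁ : F) = 0 := e2.2
      have e4 : (b₁ : F) = 0 := neg_eq_zero.1 e1.2
      have e5 : α = 0 := by
        rw [hα', e3, e4]
        simp
      have e6 := hind 1 0 (by rw [e5]; simp)
      exact one_ne_zero e6.1
    have hbk : ∀ e f : Em K, e ≠ f → rs F e = rs F f →
        br (vc (α, β) e) (vc (α, β) f) ≠ 0 := by
      intro e f hef hrs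
      have e1 : (α, β) = glF F (a₁ : F) b₁ c₁ d₁ P := Prod.ext hα' hβ'
      rw [e1, br_det P _ _ _ _ e f hrs, ← hD]
      exact mul_ne_zero ((_root_.map_ne_zero _).2 hD0) (hND e f hef hrs)
    have hfin : ∀ i, 0 < finrank F (K i) := by
      intro i
      have e1 := h4.2.2 i
      have e2 : 0 < finrank ℚ (K i) := finrank_pos
      rw [e1] at e2
      exact Nat.pos_of_mul_pos_left e2
    obtain ⟨σ⟩ : Nonempty (K j →+* ℂ) := inferInstance
    refine ⟨j, ?_, hj, ?_, ?_⟩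
    · by_contra hne
      have e1 := h4.1 j (σ.comp (algebraMap F (K j)))
      have e2 := hfin j
      have e3 : 1 < Nat.card {τ : K j →+* ℂ // τ.comp (algebraMap F (K j)) =
          σ.comp (algebraMap F (K j))} := by rw [e1]; omega
      rw [Finite.one_lt_card_iff_nontrivial] at e3
      obtain ⟨τ₁, τ₂, hτ⟩ := e3
      refine hbk ⟨j, τ₁.1⟩ ⟨j, τ₂.1⟩ (fun h => hτ (Subtype.ext (by simpa using h)))
        (τ₁.2.trans τ₂.2.symm) ?_
      unfold Pool.Agent.Y714.KF.br vc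
      simp [hαj]
    · by_contra hcon
      push Not at hcon
      have hβj : β j = 0 := by rw [hw]; exact (E_zero_comp b w j).2 hcon
      have e1 : 1 < Fintype.card (Ef F K (rs F (⟨j, σ⟩ : Em K))) := by
        rw [h4.2.1]; omega
      obtain ⟨f, hf⟩ := Fintype.exists_ne_of_one_lt_card e1 ⟨⟨j, σ⟩, rfl⟩
      refine hbk ⟨j, σ⟩ f.1 (fun h => hf (Subtype.ext h.symm)) f.2.symm ?_
      unfold Pool.Agent.Y714.KF.br vc
      simp [hαj, hβj]
    · intro i hij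
      by_contra hcon
      push Not at hcon
      have hαi : α i = 0 := by rw [hz]; exact (E_zero_comp b z i).2 hcon
      have e1 := h4.1 i (σ.comp (algebraMap F (K j)))
      have e2 := hfin i
      have e3 : 0 < Nat.card {τ : K i →+* ℂ // τ.comp (algebraMap F (K i)) =
          σ.comp (algebraMap F (K j))} := by rw [e1]; exact e2
      obtain ⟨⟨τ⟩, -⟩ := Nat.card_pos_iff.1 e3
      refine hbk ⟨i, τ.1⟩ ⟨j, σ⟩ (fun h => hij (congrArg Sigma.fst h)) τ.2 ?_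
      unfold Pool.Agent.Y714.KF.br vc
      simp [hαj, hαi]

/-- T1G -/
theorem t1g (h1 : S_RDF F K) (h4 : S_CRD F K) : S_T1G F K := by
  intro hn I C₁
  obtain ⟨b, hb⟩ := exists_bs I
  obtain ⟨B, m, hB, hm, hst⟩ := structG h1 h4 hn I C₁ b hb
  obtain ⟨m₁, hm₁⟩ := Hr_fin (F := F) b hm
  choose act hact using fun (r : 𝓞 F) (z : Ix K → ℤ) => act_exists hb r z
  obtain ⟨c₀, hc₀, hR⟩ := act_bound hact
  have hinj := act_inj hact
  obtain ⟨d, hd⟩ : ∃ d, d = finrank ℚ F := ⟨_, rfl⟩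
  rw [← hd] at hR
  have hdpos : 0 < d := by rw [hd]; exact finrank_pos
  have hdg : dg K = d * dF F K := by rw [hd]; exact dg_eq h4
  obtain ⟨q, hq⟩ : ∃ q, dg K = q + 2 * d := ⟨dg K - 2 * d, by
    have : d * 3 ≤ d * dF F K := Nat.mul_le_mul_left _ hn
    rw [← hdg] at this
    omega⟩
  have hcard : Fintype.card (Ix K) = q + 2 * d := by rw [card_Ix, hq]
  obtain ⟨C₀, hC₀⟩ : ∃ C₀ : ℝ, C₀ = m₁ * c₀⁻¹ * 5 ^ (q + 2 * d) * B ^ (q + d) := ⟨_, rfl⟩
  have hC₀n : 0 ≤ C₀ := by rw [hC₀]; positivity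
  obtain ⟨CA, hCA⟩ : ∃ CA : ℝ, CA = C₀ * (2 ^ (q + 1) * 3 ^ (q + 2 * d) * √B ^ (2 * d)) :=
    ⟨_, rfl⟩
  obtain ⟨CB, hCB⟩ : ∃ CB : ℝ, CB = C₀ * (2 ^ (q + 1) * 3 ^ (q + d) * B ^ d) := ⟨_, rfl⟩
  have hCAn : 0 ≤ CA := by rw [hCA]; positivity
  have hCBn : 0 ≤ CB := by rw [hCB]; positivity
  refine ⟨CA + Fintype.card s * CB + 1, by positivity, fun y => ?_⟩
  have hY : ∀ i : s, 0 < Real.exp (y i) := fun i => Real.exp_pos _
  have hYx : ∀ x : Ix K, 0 < Real.exp (y x.1) := fun x => Real.exp_pos _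
  obtain ⟨PY, hPY⟩ : ∃ PY, PY = ∏ x : Ix K, Real.exp (y x.1) := ⟨_, rfl⟩
  have hPYpos : 0 < PY := by rw [hPY]; exact Finset.prod_pos fun x _ => hYx x
  have hPY2 : PY ^ 2 = tt (K := K) y := by rw [hPY]; exact prod_exp y
  have hsB : 0 < √B := Real.sqrt_pos.2 hB
  -- the bound of the first vector
  have hYB : ∀ {z w : Ix K → ℤ}, Nw (fun x : Ix K => Real.exp (y x.1)) z *
      Nw (fun x : Ix K => Real.exp (y x.1)) w ≤ B →
      Nw (fun x : Ix K => Real.exp (y x.1)) z ^ 2 ≤ B →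
      0 < Nw (fun x : Ix K => Real.exp (y x.1)) z → ∀ i,
      ((∃ k, z ⟨i, k⟩ ≠ 0) ∨ (∃ k, w ⟨i, k⟩ ≠ 0)) →
      Nw (fun x : Ix K => Real.exp (y x.1)) z ≤ B * Real.exp (y i) := by
    intro z w h1 h2 h3 i h4
    rcases h4 with ⟨k, hk⟩ | ⟨k, hk⟩
    · have h5 := one_le_Nw (d := fun i => finrank ℚ (K i)) (Y := fun i => Real.exp (y i)) hY hk
      calc Nw (fun x : Ix K => Real.exp (y x.1)) z ≤ Nw (fun x : Ix K => Real.exp (y x.1)) z *
            (Nw (fun x : Ix K => Real.exp (y x.1)) z * Real.exp (y i)) :=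
            le_mul_of_one_le_right h3.le h5
        _ = Nw (fun x : Ix K => Real.exp (y x.1)) z ^ 2 * Real.exp (y i) := by ring
        _ ≤ _ := by gcongr
    · have h5 := one_le_Nw (d := fun i => finrank ℚ (K i)) (Y := fun i => Real.exp (y i)) hY hk
      calc Nw (fun x : Ix K => Real.exp (y x.1)) z ≤ Nw (fun x : Ix K => Real.exp (y x.1)) z *
            (Nw (fun x : Ix K => Real.exp (y x.1)) w * Real.exp (y i)) :=
            le_mul_of_one_le_right h3.le h5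
        _ = (Nw (fun x : Ix K => Real.exp (y x.1)) z * Nw (fun x : Ix K => Real.exp (y x.1)) w) *
            Real.exp (y i) := by ring
        _ ≤ _ := by gcongr
  -- case A
  obtain ⟨SA', hSA'⟩ : ∃ SA' : Set (Set (Al K)), SA' = {M | ∃ z w : Ix K → ℤ, Hr F b m z w M ∧
      z ∈ {z : Ix K → ℤ | ∀ i, ∃ k, z ⟨i, k⟩ ≠ 0} ∧
      0 < Nw (fun x : Ix K => Real.exp (y x.1)) z ∧
      Nw (fun x : Ix K => Real.exp (y x.1)) z * Nw (fun x : Ix K => Real.exp (y x.1)) w ≤ B ∧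
      Nw (fun x : Ix K => Real.exp (y x.1)) z ^ 2 ≤ B ∧
      Nw (fun x : Ix K => Real.exp (y x.1)) z ≤ √B ∧
      ∀ x : Ix K, Nw (fun x : Ix K => Real.exp (y x.1)) z ≤ B * Real.exp (y x.1)} := ⟨_, rfl⟩
  have cA := count2 (q := q) (d := d) hcard (fun x : Ix K => Real.exp (y x.1)) hYx act hc₀
    (hR y) hinj (Hr F b m) (fun z w M r h => Hr_add (hact r z) h) hm₁ hB
    (X := √B) hsB (K := 3 ^ (q + 2 * d) * PY) (by positivity)
    {z : Ix K → ℤ | ∀ i, ∃ k, z ⟨i, k⟩ ≠ 0} (p := q + 2 * d) (by omega)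
    (fun A hA => by
      have := zA (fun i => finrank ℚ (K i)) (fun i => Real.exp (y i)) hY A hA
      rw [hcard, ← hPY] at this
      exact this) SA' (by rw [hSA']; exact fun M hM => hM)
  -- case B
  obtain ⟨SB, hSB⟩ : ∃ SB : s → Set (Set (Al K)), SB = fun j => {M | ∃ z w : Ix K → ℤ,
      Hr F b m z w M ∧
      z ∈ {z : Ix K → ℤ | (∀ k, z ⟨j, k⟩ = 0) ∧ ∀ i, i ≠ j → ∃ k, z ⟨i, k⟩ ≠ 0} ∧
      0 < Nw (fun x : Ix K => Real.exp (y x.1)) z ∧
      Nw (fun x : Ix K => Real.exp (y x.1)) z * Nw (fun x : Ix K => Real.exp (y x.1)) w ≤ B ∧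
      Nw (fun x : Ix K => Real.exp (y x.1)) z ^ 2 ≤ B ∧
      Nw (fun x : Ix K => Real.exp (y x.1)) z ≤ B * Real.exp (y j) ∧
      ∀ x : Ix K, Nw (fun x : Ix K => Real.exp (y x.1)) z ≤ B * Real.exp (y x.1)} := ⟨_, rfl⟩
  have cB : ∀ j, finrank F (K j) = 1 → (SB j).Finite ∧ ((SB j).ncard : ℝ) ≤
      CB * tt (K := K) y := by
    intro j hj
    have hjd : finrank ℚ (K j) = d := by rw [h4.2.2 j, hj, mul_one, hd]
    have hYj := hY j
    have := count2 (q := q) (d := d) hcard (fun x : Ix K => Real.exp (y x.1)) hYx act hc₀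
      (hR y) hinj (Hr F b m) (fun z w M r h => Hr_add (hact r z) h) hm₁ hB
      (X := B * Real.exp (y j)) (by positivity)
      (K := 3 ^ (q + d) * PY / Real.exp (y j) ^ d) (by positivity)
      {z : Ix K → ℤ | (∀ k, z ⟨j, k⟩ = 0) ∧ ∀ i, i ≠ j → ∃ k, z ⟨i, k⟩ ≠ 0} (p := q + d)
      (by omega)
      (fun A hA => by
        have := zB2 (fun i => finrank ℚ (K i)) (fun i => Real.exp (y i)) hY j
          (m := q + d) (by rw [hcard, hjd]; ring) A hA
        have e9 : Real.exp (y j) ^ finrank ℚ (K j) = Real.exp (y j) ^ d := by rw [hjd]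
        rw [← hPY, e9] at this
        exact this) (SB j) (by rw [hSB]; exact fun M hM => hM)
    rw [← hPY, ← hC₀, Nat.add_sub_cancel_left] at this
    refine ⟨this.1, this.2.trans (le_of_eq ?_)⟩
    rw [hCB, ← hPY2, mul_pow]
    field_simp
  obtain ⟨G, hG⟩ : ∃ G : Finset s, G = univ.filter (fun j => finrank F (K j) = 1) := ⟨_, rfl⟩
  obtain ⟨u1, u2⟩ := biUnion_bound SB (c := CB * tt (K := K) y) G
    (fun j hj => cB j (by rw [hG, Finset.mem_filter] at hj; exact hj.2))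
  have hsub : LC F (cf I) C₁ y ⊆ SA' ∪ ⋃ j ∈ G, SB j := by
    intro M hM
    obtain ⟨z, w, hH, hz0, hzw, hz2, hcase⟩ := hst y M hM
    rcases hcase with h | ⟨j, hj1, hjz, hjw, hjall⟩
    · left
      rw [hSA']
      refine ⟨z, w, hH, h, hz0, hzw, hz2, Real.le_sqrt_of_sq_le hz2,
        fun x => hYB hzw hz2 hz0 x.1 (Or.inl (h x.1))⟩
    · right
      refine Set.mem_iUnion₂.2 ⟨j, by rw [hG]; simp [hj1], ?_⟩
      rw [hSB]
      have hall : ∀ i, Nw (fun x : Ix K => Real.exp (y x.1)) z ≤ B * Real.exp (y i) := by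
        intro i
        by_cases hij : i = j
        · subst hij
          exact hYB hzw hz2 hz0 i (Or.inr hjw)
        · exact hYB hzw hz2 hz0 i (Or.inl (hjall i hij))
      exact ⟨z, w, hH, ⟨hjz, hjall⟩, hz0, hzw, hz2, hall j, fun x => hall x.1⟩
  have hfinU := cA.1.union u1
  refine ⟨hfinU.subset hsub, ?_⟩
  have htt : 0 < tt (K := K) y := by rw [← hPY2]; positivity
  have v1 : ((LC F (cf I) C₁ y).ncard : ℝ) ≤ ((SA'.ncard : ℕ) : ℝ) +
      ((⋃ j ∈ G, SB j).ncard : ℝ) := by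
    have e1 := Set.ncard_le_ncard hsub hfinU
    have e2 := Set.ncard_union_le SA' (⋃ j ∈ G, SB j)
    exact_mod_cast e1.trans e2
  have v2 : ((SA'.ncard : ℕ) : ℝ) ≤ CA * tt (K := K) y := by
    have e1 := cA.2
    rw [← hPY, ← hC₀, Nat.add_sub_cancel_left] at e1
    refine e1.trans (le_of_eq ?_)
    rw [hCA, ← hPY2]
    ring
  have v3 : ((G.card : ℕ) : ℝ) * (CB * tt (K := K) y) ≤
      (Fintype.card s : ℝ) * (CB * tt (K := K) y) := by
    have e1 : ((G.card : ℕ) : ℝ) ≤ (Fintype.card s : ℝ) := by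
      exact_mod_cast Finset.card_le_univ G
    gcongr
  calc ((LC F (cf I) C₁ y).ncard : ℝ) ≤ CA * tt (K := K) y +
        (Fintype.card s : ℝ) * (CB * tt (K := K) y) := by linarith
    _ ≤ (CA + Fintype.card s * CB + 1) * tt (K := K) y := by
      rw [add_mul, add_mul, one_mul, mul_assoc]
      linarith

end

end Pool.Agent.Y672.KH
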